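import Pool.Agent.U856.BM.Stm2

/-! Project BM (helper856), package DN (helper750): density from the dense phases. -/

set_option autoImplicit false

namespace Pool.Agent.U750.BM.DN

open Set Filter Topology ComplexConjugate Relation
open Pool.Agent.U856.BM

lemma ineqs (a b v α : ℝ) (z : ℂ) : (∀ j : Fin 5, dt (nS α j) z < oS a b v j) ↔
    (-z.re < a ∧ -z.im < b ∧ z.re < 0 ∧ Real.sin α * z.re + Real.cos α * z.im < -v ∧ z.im < 0) := by
  constructor
  · intro h
    have h0 := h 0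
    have h1 := h 1
    have h2 := h 2
    have h3 := h 3
    have h4 := h 4
    simp [dt, nS, oS] at h0 h1 h2 h3 h4
    exact ⟨by linarith, by linarith, h2, h3, h4⟩
  · rintro ⟨h0, h1, h2, h3, h4⟩ j
    fin_cases j
    · simp [dt, nS, oS]; linarith
    · simp [dt, nS, oS]; linarith
    · simp [dt, nS, oS]; linarith
    · simp [dt, nS, oS]; linarith
    · simp [dt, nS, oS]; linarith

/-- the vertices are on both sides of a line through an interior point -/
lemma vert (a b v α : ℝ) (z : ℂ) (hα : 0 < Real.sin α) (hα' : 0 < Real.cos α)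
    (h : -z.re < a ∧ -z.im < b ∧ z.re < 0 ∧ Real.sin α * z.re + Real.cos α * z.im < -v ∧ z.im < 0)
    (P R : ℝ) (hPR : 0 < P ^ 2 + R ^ 2) :
    ∃ k : Fin 5, P * z.re + R * z.im < P * (vS a b v α k).re + R * (vS a b v α k).im := by
  obtain ⟨h0, h1, h2, h3, h4⟩ := h
  have hne : P ≠ 0 ∨ R ≠ 0 := by
    by_contra hcon
    push Not at hcon
    rw [hcon.1, hcon.2] at hPR
    norm_num at hPR
  rcases le_or_gt P 0 with hP | hP
  · rcases le_or_gt R 0 with hR | hR
    · refine ⟨1, ?_⟩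
      simp only [vS, Matrix.cons_val_one, Matrix.cons_val_zero]
      rcases hne with h | h
      · have : P < 0 := lt_of_le_of_ne hP h
        nlinarith
      · have : R < 0 := lt_of_le_of_ne hR h
        nlinarith
    · refine ⟨0, ?_⟩
      simp only [vS, Matrix.cons_val_zero]
      nlinarith
  · rcases le_or_gt R 0 with hR | hR
    · refine ⟨2, ?_⟩
      show _ < P * (0 : ℝ) + R * (-b)
      nlinarith
    · rcases le_or_gt (R * Real.sin α) (P * Real.cos α) with hc | hc
      · refine ⟨3, ?_⟩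
        show _ < P * (0 : ℝ) + R * (-(v / Real.cos α))
        have e : P * (0 : ℝ) + R * (-(v / Real.cos α)) = (R * (-v)) / Real.cos α := by
          field_simp
          ring
        rw [e, lt_div_iff₀ hα']
        nlinarith [mul_lt_mul_of_pos_left h3 hR, mul_nonneg (sub_nonneg.2 hc) (neg_nonneg.2 h2.le)]
      · refine ⟨4, ?_⟩
        show _ < P * (-(v / Real.sin α)) + R * (0 : ℝ)
        have e : P * (-(v / Real.sin α)) + R * (0 : ℝ) = (P * (-v)) / Real.sin α := by
          field_simp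
          ring
        rw [e, lt_div_iff₀ hα]
        nlinarith [mul_lt_mul_of_pos_left h3 hP, mul_nonneg (sub_nonneg.2 hc.le) (neg_nonneg.2 h4.le)]

lemma uu_eq (a b : ℝ) (w x : ℂ) : uu a b (w, true) x =
    ((dd a b).re * w.im - (dd a b).im * w.re) * x.re +
      ((dd a b).re * w.re + (dd a b).im * w.im) * x.im := by
  simp only [uu, G, cr, if_true, Complex.mul_re, Complex.mul_im]
  ring

lemma dd_norm (a b : ℝ) (ha : 0 < a) : (dd a b).re ^ 2 + (dd a b).im ^ 2 = 1 := by
  have h : 0 < a ^ 2 + b ^ 2 := by positivity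
  show (a / √(a ^ 2 + b ^ 2)) ^ 2 + (b / √(a ^ 2 + b ^ 2)) ^ 2 = 1
  rw [div_pow, div_pow, Real.sq_sqrt h.le, ← add_div, div_self h.ne']

lemma al_i0 (α : ℝ) (h q : ℕ) (hq : 0 < q) (hα : α = Real.pi * h / q) : Al q (i0 α) := by
  have hq' : (q : ℂ) ≠ 0 := by exact_mod_cast hq.ne'
  have e1 : (nS α 3) = Complex.I * Complex.exp (-(α * Complex.I)) := by
    show (⟨Real.sin α, Real.cos α⟩ : ℂ) = _
    have e2 : -((α : ℂ) * Complex.I) = ((-α : ℝ) : ℂ) * Complex.I := by push_cast; ring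
    rw [e2, Complex.exp_mul_I, ← Complex.ofReal_cos, ← Complex.ofReal_sin]
    apply Complex.ext
    · simp [-Complex.ofReal_sin, -Complex.ofReal_cos]
    · simp [-Complex.ofReal_sin, -Complex.ofReal_cos]
  show (-(1 * (if true then (nS α 3) ^ 2 else conj ((nS α 3) ^ 2)))) ^ (2 * q) = 1
  rw [if_pos rfl, e1, one_mul, mul_pow, Complex.I_sq, neg_one_mul, neg_neg, ← pow_mul,
    ← Complex.exp_nat_mul, Complex.exp_eq_one_iff]
  refine ⟨-(2 * h : ℕ), ?_⟩
  rw [hα]
  push_cast
  field_simp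

/-- directions -/
lemma exists_w (c : ℂ) (hc : ‖c‖ = 1) (q : ℕ) (hq : 2 ≤ q) :
    ∃ w : ℂ, w ^ (2 * q) = 1 ∧ w ^ 2 ≠ 1 ∧ ‖w‖ = 1 ∧ ‖w - c‖ ≤ Real.pi / q := by
  have hq0 : (0 : ℝ) < q := by exact_mod_cast (by omega : 0 < q)
  have hq' : (q : ℂ) ≠ 0 := by exact_mod_cast (by omega : q ≠ 0)
  have hpi := Real.pi_pos
  set t := Complex.arg c with ht
  have hct : c = Complex.exp (Complex.I * t) := by
    have := Complex.norm_mul_exp_arg_mul_I c
    rw [hc, Complex.ofReal_one, one_mul] at this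
    rw [mul_comm Complex.I, this]
  have hm : ∃ m : ℤ, ¬ (q : ℤ) ∣ m ∧ |Real.pi * m / q - t| ≤ Real.pi / q := by
    have h1 := Int.floor_le (t * q / Real.pi)
    have h2 := Int.lt_floor_add_one (t * q / Real.pi)
    set m := ⌊t * q / Real.pi⌋ with hmd
    have h3 : Real.pi * m / q ≤ t := by
      rw [div_le_iff₀ hq0]
      rw [le_div_iff₀ hpi] at h1
      linarith
    have h4 : t ≤ Real.pi * (m + 1) / q := by
      rw [le_div_iff₀ hq0]
      rw [div_lt_iff₀ hpi] at h2
      linarith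
    have h5 : Real.pi * (m + 1) / q = Real.pi * m / q + Real.pi / q := by ring
    by_cases hd : (q : ℤ) ∣ m
    · refine ⟨m + 1, ?_, ?_⟩
      · intro hd'
        have h6 : (q : ℤ) ∣ 1 := by
          have := dvd_sub hd' hd
          simpa using this
        have h7 := Int.le_of_dvd one_pos h6
        omega
      · push_cast
        rw [abs_le]
        constructor <;> linarith
    · refine ⟨m, hd, ?_⟩
      rw [abs_le]
      constructor <;> linarith
  obtain ⟨m, hmq, hmt⟩ := hm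
  refine ⟨Complex.exp (Complex.I * ((Real.pi * m / q : ℝ) : ℂ)), ?_, ?_, ?_, ?_⟩
  · rw [← Complex.exp_nat_mul, Complex.exp_eq_one_iff]
    refine ⟨m, ?_⟩
    push_cast
    field_simp
  · rw [← Complex.exp_nat_mul]
    intro h
    rw [Complex.exp_eq_one_iff] at h
    obtain ⟨n, hn⟩ := h
    apply hmq
    refine ⟨n, ?_⟩
    have h1 : (2 * (Real.pi : ℂ) * Complex.I) ≠ 0 := Complex.two_pi_I_ne_zero
    have h2 : (m : ℂ) * (2 * Real.pi * Complex.I) = (q * n : ℂ) * (2 * Real.pi * Complex.I) := by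
      push_cast at hn
      field_simp at hn
      linear_combination (2 * Real.pi * Complex.I) * hn
    have h3 := mul_right_cancel₀ h1 h2
    exact_mod_cast h3
  · rw [mul_comm, Complex.norm_exp_ofReal_mul_I]
  · have e1 : Complex.exp (Complex.I * ((Real.pi * m / q : ℝ) : ℂ)) - c =
        Complex.exp (Complex.I * t) *
          (Complex.exp (Complex.I * ((Real.pi * m / q - t : ℝ) : ℂ)) - 1) := by
      rw [mul_sub, mul_one, ← Complex.exp_add, hct, ← hct]
      congr 2
      push_cast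
      ring
    rw [e1, norm_mul, ← hct, hc, one_mul]
    exact (Real.norm_exp_I_mul_ofReal_sub_one_le).trans (by rw [Real.norm_eq_abs]; exact hmt)

/-- the parameters near given ones -/
lemma near (a b v α : ℝ) (x : ℂ) (hok : Ok a b v α) (hx : ∀ j : Fin 5, dt (nS α j) x < oS a b v j) :
    ∃ δ : ℝ, 0 < δ ∧ ∀ a' b' v' α' : ℝ, |a' - a| < δ → |b' - b| < δ → |v' - v| < δ → |α' - α| < δ →
      Ok a' b' v' α' ∧ ∀ j : Fin 5, dt (nS α' j) x < oS a' b' v' j := by
  have cc : ∀ f g : ℝ × ℝ × ℝ × ℝ → ℝ, Continuous f → Continuous g →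
      f (a, b, v, α) < g (a, b, v, α) → ∀ᶠ p in 𝓝 (a, b, v, α), f p < g p :=
    fun f g hf hg h => (isOpen_lt hf hg).mem_nhds h
  obtain ⟨o1, o2, o3, o4, o5, o6, o7, o8⟩ := hok
  obtain ⟨h0, h1, h2, h3, h4⟩ := (ineqs a b v α x).1 hx
  have H : ∀ᶠ p : ℝ × ℝ × ℝ × ℝ in 𝓝 (a, b, v, α), Ok p.1 p.2.1 p.2.2.1 p.2.2.2 ∧
      ∀ j : Fin 5, dt (nS p.2.2.2 j) x < oS p.1 p.2.1 p.2.2.1 j := by
    filter_upwards [cc (fun _ => 0.99) (fun p => p.1) (by fun_prop) (by fun_prop) o1,
      cc (fun p => p.1) (fun _ => 1.01) (by fun_prop) (by fun_prop) o2,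
      cc (fun _ => 1.72) (fun p => p.2.1) (by fun_prop) (by fun_prop) o3,
      cc (fun p => p.2.1) (fun _ => 1.75) (by fun_prop) (by fun_prop) o4,
      cc (fun _ => 0.1) (fun p => p.2.2.1) (by fun_prop) (by fun_prop) o5,
      cc (fun p => p.2.2.1) (fun _ => 0.11) (by fun_prop) (by fun_prop) o6,
      cc (fun _ => 0.75) (fun p => p.2.2.2) (by fun_prop) (by fun_prop) o7,
      cc (fun p => p.2.2.2) (fun _ => 0.82) (by fun_prop) (by fun_prop) o8,
      cc (fun _ => -x.re) (fun p => p.1) (by fun_prop) (by fun_prop) h0,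
      cc (fun _ => -x.im) (fun p => p.2.1) (by fun_prop) (by fun_prop) h1,
      cc (fun p => Real.sin p.2.2.2 * x.re + Real.cos p.2.2.2 * x.im) (fun p => -p.2.2.1)
        (by fun_prop) (by fun_prop) h3] with p q1 q2 q3 q4 q5 q6 q7 q8 q9 q10 q11
    exact ⟨⟨q1, q2, q3, q4, q5, q6, q7, q8⟩, (ineqs _ _ _ _ x).2 ⟨q9, q10, h2, q11, h4⟩⟩
  obtain ⟨δ, hδ, hball⟩ := Metric.eventually_nhds_iff.1 H
  refine ⟨δ, hδ, fun a' b' v' α' ha hb hv hα => ?_⟩
  exact hball (y := (a', b', v', α')) (by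
    rw [Prod.dist_eq, Prod.dist_eq, Prod.dist_eq]
    simp only [Real.dist_eq]
    exact max_lt ha (max_lt hb (max_lt hv hα)))

/-- rational multiples of `π` -/
lemma rat_near (α δ : ℝ) (hα : 0 < α) (hδ : 0 < δ) : ∃ h q : ℕ, q.Prime ∧ 5 ≤ q ∧
    |Real.pi * h / q - α| < δ ∧ Real.pi / q < δ := by
  obtain ⟨N, hN⟩ := exists_nat_gt (Real.pi / δ)
  obtain ⟨q, hq, hqp⟩ := Nat.exists_infinite_primes (max N 5)
  have hpi := Real.pi_pos
  have hq5 : 5 ≤ q := (le_max_right _ _).trans hq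
  have hqN : (N : ℝ) ≤ q := by exact_mod_cast (le_max_left N 5).trans hq
  have hq0 : (0 : ℝ) < q := by exact_mod_cast (by omega : 0 < q)
  have hπq : Real.pi / q < δ := by
    rw [div_lt_iff₀ hq0]
    rw [div_lt_iff₀ hδ] at hN
    nlinarith
  refine ⟨⌊α * q / Real.pi⌋₊, q, hqp, hq5, ?_, hπq⟩
  have h1 := Nat.floor_le (show 0 ≤ α * q / Real.pi by positivity)
  have h2 := Nat.lt_floor_add_one (α * q / Real.pi)
  set m := ⌊α * q / Real.pi⌋₊ with hmd
  have h3 : Real.pi * m / q ≤ α := by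
    rw [div_le_iff₀ hq0]
    rw [le_div_iff₀ hpi] at h1
    linarith
  have h4 : α < Real.pi * (m + 1) / q := by
    rw [lt_div_iff₀ hq0]
    rw [div_lt_iff₀ hpi] at h2
    linarith
  have h5 : Real.pi * (m + 1) / q = Real.pi * m / q + Real.pi / q := by ring
  rw [abs_lt]
  constructor <;> linarith

theorem t_DN : S_DN := by
  intro SD EX LI EG NE GN LN a b v α x e φ ε hok hx he hε
  have hx' := ((SD a b v α hok).1 x).1 hx
  obtain ⟨δ, hδ, hnear⟩ := near a b v α x hok hx'
  have hα0 : 0 < α := by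
    have := hok.2.2.2.2.2.2.1
    linarith
  obtain ⟨h, q, hqp, hq5, hαq, hπq⟩ := rat_near α (min δ ε) hα0 (lt_min hδ hε)
  obtain ⟨a', b', v', ha, hb, hv, hgen⟩ := GN a b v (min δ ε) (lt_min hδ hε)
  obtain ⟨α', hα'⟩ : ∃ α' : ℝ, α' = Real.pi * h / q := ⟨_, rfl⟩
  rw [← hα'] at hαq
  obtain ⟨hok', hx''⟩ := hnear a' b' v' α' (ha.trans_le (min_le_left _ _))
    (hb.trans_le (min_le_left _ _)) (hv.trans_le (min_le_left _ _)) (hαq.trans_le (min_le_left _ _))
  have hrat : Rat a' b' v' α' h q := ⟨hok', hgen, hqp, hq5, hα'⟩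
  have hxint : x ∈ interior (Tb a' b' v' α') := ((SD a' b' v' α' hok').1 x).2 hx''
  refine ⟨a', b', v', α', hok', ha.trans_le (min_le_right _ _), hb.trans_le (min_le_right _ _),
    hv.trans_le (min_le_right _ _), hαq.trans_le (min_le_right _ _), ?_⟩
  have hq0 : 0 < q := by omega
  have ha0 : 0 < a' := by
    have := hok'.1
    linarith
  have hdd := dd_norm a' b' ha0
  obtain ⟨D, hDd⟩ : ∃ D : ℂ, D = dd a' b' := ⟨_, rfl⟩
  rw [← hDd] at hdd
  have hDn : ‖D‖ = 1 := by
    rw [Complex.norm_eq_sqrt_sq_add_sq, hdd, Real.sqrt_one]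
  have hDD : conj D * D = 1 := by
    rw [mul_comm, Complex.mul_conj, Complex.normSq_eq_norm_sq, hDn]
    norm_num
  have hc : ‖D * conj e‖ = 1 := by
    rw [norm_mul, Complex.norm_conj, hDn, he, one_mul]
  obtain ⟨w, hw1, hw2, hwn, hwc⟩ := exists_w (D * conj e) hc q (by omega)
  have hww : w * conj w = 1 := by
    rw [Complex.mul_conj, Complex.normSq_eq_norm_sq, hwn]
    norm_num
  have hwsq : w.re ^ 2 + w.im ^ 2 = 1 := by
    have := Complex.norm_eq_sqrt_sq_add_sq w
    rw [hwn] at this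
    have h2 := Real.sq_sqrt (show 0 ≤ w.re ^ 2 + w.im ^ 2 by positivity)
    rw [← this] at h2
    linarith
  have hpi := Real.pi_gt_three
  have hα1 : 0.75 < α' := hok'.2.2.2.2.2.2.1
  have hα2 : α' < 0.82 := hok'.2.2.2.2.2.2.2
  have hsin : 0 < Real.sin α' := Real.sin_pos_of_pos_of_lt_pi (by linarith) (by linarith)
  have hcos : 0 < Real.cos α' := Real.cos_pos_of_mem_Ioo ⟨by linarith, by linarith⟩
  obtain ⟨u, hu⟩ : ∃ u : ℝ, u = uu a' b' (w, true) x := ⟨_, rfl⟩
  have hin := (ineqs a' b' v' α' x).1 hx''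
  have hInR : InR a' b' v' α' (w, true) u := by
    have hn2 : (D.re * w.im - D.im * w.re) ^ 2 + (D.re * w.re + D.im * w.im) ^ 2 = 1 := by
      have : (D.re * w.im - D.im * w.re) ^ 2 + (D.re * w.re + D.im * w.im) ^ 2 =
        (D.re ^ 2 + D.im ^ 2) * (w.re ^ 2 + w.im ^ 2) := by ring
      rw [this, hdd, hwsq, one_mul]
    constructor
    · obtain ⟨k, hk⟩ := vert a' b' v' α' x hsin hcos hin (-(D.re * w.im - D.im * w.re))
        (-(D.re * w.re + D.im * w.im)) (by rw [neg_sq, neg_sq, hn2]; exact one_pos)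
      refine ⟨k, ?_⟩
      rw [hu, uu_eq, uu_eq, ← hDd]
      linarith
    · obtain ⟨k, hk⟩ := vert a' b' v' α' x hsin hcos hin (D.re * w.im - D.im * w.re)
        (D.re * w.re + D.im * w.im) (by rw [hn2]; exact one_pos)
      refine ⟨k, ?_⟩
      rw [hu, uu_eq, uu_eq, ← hDd]
      linarith
  obtain ⟨z, hz0, hstep, hlim⟩ := LI a' b' v' α' h q hrat
  have hAl : ∀ n, Al q (z n).1 := by
    intro n
    induction n with
    | zero =>
      rw [hz0]
      exact al_i0 α' h q hq0 hα'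
    | succ n ih =>
      obtain ⟨j, hj, hz⟩ := hstep n
      rw [hz]
      exact ((EX a' b' v' α' h q hrat (z n).1 (z n).2.1 ih).2.2.1 j hj).2.1
  have hden := EG a' b' v' α' h q hrat z hAl hstep hlim
  rcases hden with hD | ⟨k, F, hk, hF⟩
  swap
  · exact absurd hF (NE a' b' v' α' h q hrat k F hk)
  obtain ⟨ρ, hρ, hball⟩ := Metric.isOpen_iff.1 isOpen_interior x hxint
  obtain ⟨n, k, hn1, hn2, hn3⟩ := hD (w, true) u (φ - tt a' b' (w, true) x) (min ρ ε) hw1 hw2 hInR
    (lt_min hρ hε)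
  obtain ⟨s, hs⟩ : ∃ s : ℝ, s = (z n).2.1 - u := ⟨_, rfl⟩
  rw [← hs] at hn2
  obtain ⟨y, hy⟩ : ∃ y : ℂ, y = x + (s : ℂ) * Complex.I * D * conj w := ⟨_, rfl⟩
  have hyx : ‖y - x‖ = |s| := by
    rw [hy, add_sub_cancel_left, norm_mul, norm_mul, norm_mul, Complex.norm_conj, hwn, hDn,
      Complex.norm_I, Complex.norm_real, Real.norm_eq_abs]
    ring
  have hwy : w * y = w * x + (s : ℂ) * (Complex.I * D) := by
    rw [hy]
    linear_combination ((s : ℂ) * Complex.I * D) * hww
  have hre : (w * y).re = (w * x).re - s * D.im := by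
    rw [hwy]
    simp
    ring
  have him : (w * y).im = (w * x).im + s * D.re := by
    rw [hwy]
    simp
  have huy : uu a' b' (w, true) y = (z n).2.1 := by
    have h1 : uu a' b' (w, true) y = D.re * (w * y).im - D.im * (w * y).re := by
      rw [hDd]; rfl
    have h2 : u = D.re * (w * x).im - D.im * (w * x).re := by
      rw [hu, hDd]; rfl
    rw [h1, hre, him]
    have h3 : (z n).2.1 = u + s := by rw [hs]; ring
    rw [h3, h2]
    linear_combination s * hdd
  have hty : tt a' b' (w, true) y = tt a' b' (w, true) x := by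
    have h1 : tt a' b' (w, true) y = D.re * (w * y).re + D.im * (w * y).im := by
      rw [hDd]; rfl
    have h2 : tt a' b' (w, true) x = D.re * (w * x).re + D.im * (w * x).im := by
      rw [hDd]; rfl
    rw [h1, h2, hre, him]
    ring
  have hyint : y ∈ interior (Tb a' b' v' α') := by
    apply hball
    rw [Metric.mem_ball, dist_eq_norm, hyx]
    exact hn2.trans_le (min_le_left _ _)
  have hrt : ∀ m, ReflTransGen (Stp a' b' v' α') (zs a' b' v' α') (z m) := by
    intro m
    induction m with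
    | zero => rw [hz0]
    | succ m ih => exact ih.tail (hstep m)
  have hsep := LN a' b' v' α' h q hrat (z n) (hrt n) y hyint (by rw [hn1]; exact huy)
  refine ⟨_, y, _, k, hsep, ?_, ?_, ?_⟩
  · rw [hyx]
    exact hn2.trans_le (min_le_right _ _)
  · rw [hn1]
    have h1 : dir a' b' (w, true) - e = conj (w - D * conj e) * D := by
      have h2 : dir a' b' (w, true) = conj w * D := by rw [hDd]; rfl
      rw [h2, map_sub, map_mul, Complex.conj_conj]
      linear_combination e * hDD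
    rw [h1, norm_mul, Complex.norm_conj, hDn, mul_one]
    exact (hwc.trans_lt hπq).trans_le (min_le_right _ _)
  · rw [hn1, hty]
    have h1 : (z n).2.2 + tt a' b' (w, true) x - φ - k * ll a' b' =
      (z n).2.2 - (φ - tt a' b' (w, true) x) - k * ll a' b' := by ring
    rw [h1]
    exact hn3.trans_le (min_le_right _ _)

end Pool.Agent.U750.BM.DN
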